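import Pool.Agent.Run7.h71.CD.Stm

/-! # Project CD: assembly -/

set_option autoImplicit false

namespace Pool.Agent.Run7.h71.CD

theorem assembly (ring : S_RING) (tk : S_TK) (lft : S_LFT) (zet : S_ZET) (evn : S_EVN)
    (setup : S_SETUP) (jets : S_JETS) (fr : S_FR) (str : S_STR) (th1 : S_THETA1) (th2 : S_THETA2)
    (trans : S_TRANS) (out : S_OUT) (par : S_PAR) (lvl : S_LVL) (fin : S_FIN) : Goal :=
  fin lft par lvl (out lft ring (jets lft tk) fr str (th2 th1) trans) (setup lft tk zet evn)

end Pool.Agent.Run7.h71.CD
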