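import Mathlib

/-!
# Project CD: the smooth converse of Desargues' involution theorem (definitions)

`U` is an open subset of the affine plane `ℝ × ℝ`, `F` a smooth function on `U`, whose level curves
are the leaves.  `cone U` is the open cone over `U` in `ℝ³` (homogeneous coordinates), `lft F` the
homogeneous function of degree `0` on it.
-/

set_option autoImplicit false

namespace Pool.Agent.Run7.h71.CD

open Set Filter Topology
open scoped ContDiff

/-- homogeneous coordinates -/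
abbrev E3 : Type := Fin 3 → ℝ

/-- the open cone over `U` -/
def cone (U : Set (ℝ × ℝ)) : Set E3 := {X | 0 < X 2 ∧ (X 0 / X 2, X 1 / X 2) ∈ U}

/-- the homogeneous function of degree zero -/
noncomputable def lft (F : ℝ × ℝ → ℝ) (X : E3) : ℝ := F (X 0 / X 2, X 1 / X 2)

/-- homogeneous coordinates of a point of the plane -/
def hom (x : ℝ × ℝ) : E3 := ![x.1, x.2, 1]

/-- The value of the quadratic form `Q` at `X`. -/
def qf (Q : Matrix (Fin 3) (Fin 3) ℝ) (X : E3) : ℝ := ∑ i, ∑ j, Q i j * X i * X j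

/-- the foliation by the level curves of `F`: smooth, regular, and every leaf is curved: `F` has a
nondegenerate minimum at `x` on the tangent line at `x` of the leaf through `x` -/
structure Leaves (U : Set (ℝ × ℝ)) (F : ℝ × ℝ → ℝ) : Prop where
  isOpen : IsOpen U
  smooth : ContDiffOn ℝ ∞ F U
  regular : ∀ x ∈ U, fderiv ℝ F x ≠ 0
  curved : ∀ x ∈ U, ∀ v : ℝ × ℝ, v ≠ 0 → fderiv ℝ F x v = 0 →
    0 < deriv (deriv fun s : ℝ => F (x + s • v)) 0

/-- the involution which exchanges the two points of each leaf on the tangent line at `x` of the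
leaf through `x` is, near `x`, a projective transformation of the line -/
def ProjAt (F : ℝ × ℝ → ℝ) (x : ℝ × ℝ) : Prop :=
  ∀ v : ℝ × ℝ, fderiv ℝ F x v = 0 →
    ∃ c : ℝ, ∀ᶠ s in 𝓝 (0 : ℝ), F (x + s • v) = F (x - (s / (1 + c * s)) • v)

/-- the normalised homogeneous vector field `ζ` tangent to the leaves: `s ↦ F (X + s ζ(X))` has
second derivative `2` and vanishing derivatives of order `1, 3, 5, 7` at `s = 0` -/
structure Fld (U : Set (ℝ × ℝ)) (F : ℝ × ℝ → ℝ) (ζ : E3 → E3) : Prop where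
  smooth : ContDiffOn ℝ ∞ ζ (cone U)
  homog : ∀ X ∈ cone U, ∀ r : ℝ, 0 < r → ζ (r • X) = r • ζ X
  two : ∀ X ∈ cone U, iteratedDeriv 2 (fun s : ℝ => lft F (X + s • ζ X)) 0 = 2
  odd : ∀ X ∈ cone U, ∀ k ∈ ({1, 3, 5, 7} : Set ℕ),
    iteratedDeriv k (fun s : ℝ => lft F (X + s • ζ X)) 0 = 0

/-! ### the ring of smooth functions on an open set -/

/-- smooth functions on `O` (as functions on the subtype) -/
def Sm (O : Set E3) : Subalgebra ℝ (O → ℝ) where
  carrier := {f | ∃ g : E3 → ℝ, ContDiffOn ℝ ∞ g O ∧ ∀ x : O, f x = g x}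
  mul_mem' := by
    rintro f f' ⟨g, hg, h⟩ ⟨g', hg', h'⟩
    exact ⟨fun x => g x * g' x, hg.mul hg', fun x => by simp [h x, h' x]⟩
  add_mem' := by
    rintro f f' ⟨g, hg, h⟩ ⟨g', hg', h'⟩
    exact ⟨fun x => g x + g' x, hg.add hg', fun x => by simp [h x, h' x]⟩
  algebraMap_mem' r := ⟨fun _ => r, contDiffOn_const, fun x => rfl⟩

/-- the element of `Sm O` given by a function which is smooth on `O` -/
def mk {O : Set E3} (g : E3 → ℝ) (hg : ContDiffOn ℝ ∞ g O) : Sm O :=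
  ⟨fun x => g x, g, hg, fun _ => rfl⟩

theorem mk_apply {O : Set E3} (g : E3 → ℝ) (hg : ContDiffOn ℝ ∞ g O) (x : O) :
    (mk g hg : Sm O).1 x = g x := rfl

theorem Sm.ext' {O : Set E3} {f g : Sm O} (h : ∀ x : O, f.1 x = g.1 x) : f = g :=
  Subtype.ext (funext h)

instance (O : Set E3) : IsReduced (Sm O) := by
  constructor
  rintro f ⟨n, hn⟩
  apply Sm.ext'
  intro x
  have h1 : (f.1 x) ^ n = 0 := by
    have := congrArg (fun g : Sm O => g.1 x) hn
    simpa using this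
  exact eq_zero_of_pow_eq_zero h1

/-- the partial derivatives are derivations `d 0, d 1, d 2` of the ring `Sm O` -/
structure IsD (O : Set E3) (d : Fin 3 → Derivation ℝ (Sm O) (Sm O)) : Prop where
  eq : ∀ (i : Fin 3) (g : E3 → ℝ) (hg : ContDiffOn ℝ ∞ g O) (x : O),
    (d i (mk g hg)).1 x = fderiv ℝ g x (Pi.single i 1)
  comm : ∀ (i j : Fin 3) (f : Sm O), d i (d j f) = d j (d i f)

/-! ### algebra -/

section alg

variable {A : Type} [CommRing A] [Algebra ℝ A]

/-- cancellation of a nonzero natural number in an `ℝ`-algebra -/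
theorem ncancel (n : ℕ) (hn : n ≠ 0) {x y : A} (h : (n : A) * x = n * y) : x = y := by
  have h1 : (algebraMap ℝ A (1 / n)) * (n : A) = 1 := by
    have : (n : A) = algebraMap ℝ A n := by simp
    rw [this, ← map_mul]
    have h2 : (1 / (n : ℝ)) * n = 1 := by
      field_simp
    rw [h2, map_one]
  calc x = (algebraMap ℝ A (1 / n)) * (n : A) * x := by rw [h1, one_mul]
    _ = (algebraMap ℝ A (1 / n)) * (n : A) * y := by rw [mul_assoc, h, ← mul_assoc]
    _ = y := by rw [h1, one_mul]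

omit [Algebra ℝ A] in
/-- in a reduced ring one may cancel one of two equal factors -/
theorem rcancel [IsReduced A] {t x : A} (n : ℕ) (h : t ^ n * x = 0) : t * x = 0 := by
  have : (t * x) ^ (n + 1) = 0 := by
    have e : (t * x) ^ (n + 1) = (t ^ n * x) * (t * x ^ n) := by ring
    rw [e, h, zero_mul]
  exact eq_zero_of_pow_eq_zero this

/-- scalar product -/
def dot (u v : Fin 3 → A) : A := ∑ i, u i * v i

/-- The jets of `F (X + s ζ(X))`: `M k j` is the `k`-th derivative at `s = 0` of the `j`-th partial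
derivative of `F` at `X + s ζ(X)`; `d j` are the partial derivatives, `X i` the coordinates. -/
structure Jets (d : Fin 3 → Derivation ℝ A A) (X ζ ν : Fin 3 → A) (M : ℕ → Fin 3 → A) : Prop where
  comm : ∀ i j f, d i (d j f) = d j (d i f)
  dX : ∀ i j, d j (X i) = if i = j then 1 else 0
  Eζ : ∀ i, ∑ j, X j * d j (ζ i) = ζ i
  Zζ : ∀ i, ∑ j, ζ j * d j (ζ i) = -2 * ν i
  det : IsUnit (Matrix.of ![X, ζ, ν]).det
  M1 : ∀ j, ∑ i, ζ i * d i (M 0 j) = M 1 j
  X0 : dot (M 0) X = 0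
  XM : ∀ k < 6, dot (M (k + 1)) X + (k + 1 : ℕ) * dot (M k) ζ = 0
  dM : ∀ k < 6, ∀ j, d j (dot (M k) ζ) =
    M (k + 1) j + (k + 1 : ℕ) * dot (M k) (fun i => d j (ζ i))
  f1 : dot (M 0) ζ = 0
  f2 : dot (M 1) ζ = 2
  f3 : dot (M 2) ζ = 0
  f5 : dot (M 4) ζ = 0
  f7 : dot (M 6) ζ = 0

/-- The moving frame `X, ζ, ν` and its structure equations with respect to the derivations `E`
(along `X`), `Z` (along `ζ`), `N` (along `ν`). -/
structure Frm (Z N E : Derivation ℝ A A) (X ζ ν : Fin 3 → A) (a b p q l m n : A) : Prop where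
  det : IsUnit (Matrix.of ![X, ζ, ν]).det
  EX : ∀ i, E (X i) = X i
  ZX : ∀ i, Z (X i) = ζ i
  NX : ∀ i, N (X i) = ν i
  Eζ : ∀ i, E (ζ i) = ζ i
  Zζ : ∀ i, Z (ζ i) = -2 * ν i
  Nζ : ∀ i, N (ζ i) = p * X i + q * ζ i
  Eν : ∀ i, E (ν i) = ν i
  Zν : ∀ i, Z (ν i) = -(a * X i + b * ζ i)
  Nν : ∀ i, N (ν i) = l * X i + m * ζ i + n * ν i
  Ea : E a = 0
  Eb : E b = 0
  Ep : E p = 0
  Eq : E q = 0
  El : E l = 0
  Em : E m = 0
  En : E n = 0
  EZ : ∀ f, E (Z f) = Z (E f)
  EN : ∀ f, E (N f) = N (E f)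
  ZN : ∀ f, Z (N f) - N (Z f) = -(b + q) * Z f - (a + p) * E f

/-- The reduced system of the invariants (`6 t = 6 p + Z b`). -/
structure Sys (Z N E : Derivation ℝ A A) (β b p q t : A) : Prop where
  Eb : E b = 0
  Ep : E p = 0
  Eq : E q = 0
  Et : E t = 0
  EZ : ∀ f, E (Z f) = Z (E f)
  EN : ∀ f, E (N f) = N (E f)
  ZN : ∀ f, Z (N f) - N (Z f) = -(b + q) * Z f + β * E f
  Zb : Z b = 6 * (t - p)
  Zq : Z q = 4 * p
  Np : N p = p * (3 * q + b)
  Nb : N b = 2 * b ^ 2 + 2 * q * b - Z t + 2 * Z p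
  Nt : 4 * N t = -Z (Z p) + 8 * b * t + 12 * q * t + 8 * b * p

end alg

/-- `B`, `C` are symmetric forms depending on the point of `O` whose span is parallel. -/
structure Par (O : Set E3) (B C : E3 → Matrix (Fin 3) (Fin 3) ℝ) (w : Fin 3 → Fin 4 → E3 → ℝ) :
    Prop where
  cB : ∀ i j, ContDiffOn ℝ ∞ (fun X => B X i j) O
  cC : ∀ i j, ContDiffOn ℝ ∞ (fun X => C X i j) O
  cw : ∀ k r, ContinuousOn (w k r) O
  dB : ∀ X ∈ O, ∀ k i j, fderiv ℝ (fun X => B X i j) X (Pi.single k 1) =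
    w k 0 X * B X i j + w k 1 X * C X i j
  dC : ∀ X ∈ O, ∀ k i j, fderiv ℝ (fun X => C X i j) X (Pi.single k 1) =
    w k 2 X * B X i j + w k 3 X * C X i j

end Pool.Agent.Run7.h71.CD
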