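import Pool.Agent.Run7.h71.CD.Stm

/-! # Project CD, piece THETA2 -/

set_option autoImplicit false

namespace Pool.Agent.Run7.h71.CD

section

variable {A : Type} [CommRing A] [Algebra ℝ A]

theorem dnum (Z : Derivation ℝ A A) (n : ℕ) : Z (n : A) = 0 := Z.map_natCast n

theorem dof (Z : Derivation ℝ A A) (n : ℕ) [n.AtLeastTwo] :
    Z (no_index (OfNat.ofNat n : A)) = 0 := by
  have := Z.map_natCast (OfNat.ofNat n)
  simpa using this

theorem dmul (Z : Derivation ℝ A A) (x y : A) : Z (x * y) = x * Z y + y * Z x := by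
  simp

theorem dpow2 (Z : Derivation ℝ A A) (x : A) : Z (x ^ 2) = 2 * x * Z x := by
  rw [pow_two, dmul]; ring

end

theorem THETA2 : S_THETA2 := by
  intro th1 A _ _ _ Z N E β b p q t S
  obtain ⟨u, hu⟩ : ∃ u, u = Z (Z p) - 8 * b * p := ⟨_, rfl⟩
  obtain ⟨h2, h4, h9⟩ := th1 A Z N E β b p q t S u hu
  obtain ⟨t1, ht1⟩ : ∃ x, x = Z t := ⟨_, rfl⟩
  obtain ⟨p1, hp1⟩ : ∃ x, x = Z p := ⟨_, rfl⟩
  obtain ⟨u1, hu1⟩ : ∃ x, x = Z u := ⟨_, rfl⟩
  -- Z-derivatives
  have Zb := S.Zb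
  have Zq := S.Zq
  have Zp1 : Z p1 = 8 * b * p + u := by rw [hp1, hu]; ring
  have Zt1 : 2 * Z t1 = 36 * b * t + 7 * u := by rw [ht1, h2]
  have Zu1 : Z u1 = 32 * b * u + 240 * t * t1 - 204 * p * t1 - 396 * p1 * t := by
    rw [hu1, h4, ← ht1, ← hp1]
  rw [← hu1, ← ht1] at h9
  -- E kills
  have Ep1 : E p1 = 0 := by rw [hp1, S.EZ, S.Ep, map_zero]
  have Et1 : E t1 = 0 := by rw [ht1, S.EZ, S.Et, map_zero]
  have EZp1 : E (Z p1) = 0 := by rw [S.EZ, Ep1, map_zero]
  have Eu : E u = 0 := by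
    have : u = Z p1 - 8 * b * p := by rw [hu, hp1]
    rw [this]
    simp only [map_sub, dmul, EZp1, S.Eb, S.Ep, dof]
    ring
  -- N-derivatives
  have Np := S.Np
  have Nb := S.Nb
  rw [← ht1, ← hp1] at Nb
  have Nt : 4 * N t = 4 * t * (2 * b + 3 * q) - u := by
    rw [S.Nt, hu]; ring
  have Np1 : N p1 = 6 * p * t + 6 * p ^ 2 + (4 * q + 2 * b) * p1 := by
    have h := S.ZN p
    rw [Np, S.Ep] at h
    simp only [dmul, map_add, dof] at h
    rw [Zq, Zb, ← hp1] at h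
    linear_combination -h
  have Nu : N u = u * (5 * q + 3 * b) + 18 * t * p1 + 14 * p * t1 := by
    have h := S.ZN p1
    rw [Np1, Zp1, Ep1] at h
    simp only [dmul, map_add, dof, dpow2] at h
    rw [Zq, Zb, ← hp1, ← ht1, Zp1, Np, Nb] at h
    linear_combination -h
  have Nt1 : 4 * N t1 = 48 * t ^ 2 + 16 * q * t1 + 12 * b * t1 - u1 := by
    have h := S.ZN t
    rw [S.Et] at h
    have h' := congrArg Z Nt
    simp only [dmul, map_add, map_sub, dof] at h'
    rw [Zq, Zb, ← ht1, ← hu1] at h'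
    rw [← ht1] at h
    linear_combination h' - 4 * h
  have Nu1 : N u1 = 396 * b * p * t + 36 * t * u + 32 * p1 * t1 + 51 * p * u + 6 * q * u1 +
      4 * b * u1 := by
    have h := S.ZN u
    rw [Eu, Nu, ← hu1] at h
    simp only [dmul, map_add, dof] at h
    rw [Zq, Zb, ← ht1, ← hu1, ← hp1, Zp1] at h
    apply ncancel 1 one_ne_zero
    push_cast
    linear_combination -h + 7 * p * Zt1
  -- R10
  have h10 : t1 * u1 + 2 * u ^ 2 + 24 * b * t * u + 72 * t ^ 2 * t1 - 36 * t * t1 * p -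
      144 * t ^ 2 * p1 = 0 := by
    have h := congrArg Z h9
    simp only [dmul, map_add, map_sub, dof, dpow2] at h
    rw [Zu1, ← ht1, ← hp1, ← hu1] at h
    apply ncancel 7 (by norm_num)
    push_cast
    linear_combination h - 2 * u * Zt1
  -- RA
  have hA : 1296 * b * t ^ 3 * 2 - 1800 * b * p * t ^ 2 * 2 + 384 * t * t1 ^ 2 * 2 +
      252 * t ^ 2 * u * 2 - 720 * p1 * t * t1 * 2 - 240 * p * t1 ^ 2 * 2 - 270 * p * t * u * 2 +
      56 * b * t1 * u * 2 + 42 * b * t * u1 * 2 + 15 * u * u1 = 0 := by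
    have h := congrArg Z h10
    simp only [dmul, map_add, map_sub, dof, dpow2, map_zero] at h
    rw [Zu1, Zb, ← ht1, ← hp1, ← hu1, Zp1] at h
    linear_combination 2 * h - (u1 + 72 * t ^ 2 - 36 * t * p) * Zt1
  -- RB
  have hB : -432 * b * t ^ 3 * 4 + 2088 * b * p * t ^ 2 * 4 + 210 * t ^ 2 * u * 4 +
      168 * p1 * t * t1 * 4 + 56 * p * t1 ^ 2 * 4 + 63 * p * t * u * 4 + 24 * b * t1 * u * 4 +
      18 * b * t * u1 * 4 - 7 * u * u1 = 0 := by
    have h := congrArg N h9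
    simp only [dmul, map_add, map_sub, dof, dpow2] at h
    rw [Nu1, Nu, Np] at h
    linear_combination 4 * h - 36 * q * h9 - (3 * u1 - 216 * t ^ 2 + 360 * t * p) * Nt -
      4 * u * Nt1
  -- E1
  have e1 : t * (t1 ^ 2 + 3 * t * u + 6 * b * t ^ 2) = 0 := by
    apply ncancel 5376 (by norm_num)
    push_cast
    linear_combination 7 * hA + 15 * hB - 556 * b * h9
  have e2 : t * (8 * b * t * t1 + t1 * u + 18 * t ^ 3 - 36 * p * t ^ 2) = 0 := by
    have h := congrArg Z e1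
    simp only [dmul, map_add, map_sub, dof, dpow2, map_zero] at h
    rw [Zb, ← ht1, ← hu1] at h
    apply rcancel 2
    apply ncancel 6 (by norm_num)
    push_cast
    linear_combination t * h - t ^ 2 * t1 * Zt1 - t1 * e1 - t ^ 2 * h9
  have e3 : t * (288 * b ^ 2 * t ^ 2 + 204 * t ^ 2 * t1 - 72 * p1 * t ^ 2 - 240 * p * t * t1 +
      16 * b * t1 ^ 2 + 92 * b * t * u + 7 * u ^ 2 + 2 * t1 * u1) = 0 := by
    have h := congrArg Z e2
    have h3 : Z (t ^ 3) = 3 * t ^ 2 * t1 := by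
      have : t ^ 3 = t * (t * t) := by ring
      rw [this]
      simp only [dmul]
      rw [← ht1]
      ring
    simp only [dmul, map_add, map_sub, dof, dpow2, map_zero, h3] at h
    rw [Zb, ← ht1, ← hu1, ← hp1] at h
    apply rcancel 2
    linear_combination 2 * t * h - t ^ 2 * (8 * b * t + u) * Zt1 - 2 * t1 * e2
  have e4 : t * (192 * b * q * t ^ 2 + 144 * b ^ 2 * t ^ 2 + 72 * t ^ 2 * t1 + 264 * p1 * t ^ 2 +
      168 * p * t * t1 + 32 * q * t1 ^ 2 + 96 * q * t * u + 24 * b * t1 ^ 2 + 48 * b * t * u -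
      3 * u ^ 2 - 2 * t1 * u1) = 0 := by
    have h := congrArg N e1
    simp only [dmul, map_add, map_sub, dof, dpow2, map_zero] at h
    rw [Nu, Nb] at h
    apply rcancel 2
    linear_combination 4 * t * h - t * (t1 ^ 2 + 3 * t * u + 6 * b * t ^ 2) * Nt -
      (4 * t * (2 * b + 3 * q) - u) * e1 + 0 * Nt1 - t ^ 2 * (2 * t1) * Nt1 -
      t ^ 2 * (3 * u + 12 * b * t) * Nt + (4 * t * (2 * b + 3 * q) - u) * e1 -
      (4 * t * (2 * b + 3 * q) - u) * e1
  have c3 : t * (864 * t ^ 4 * t1 + 304 * t1 ^ 4 + 912 * t * t1 ^ 2 * u +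
      684 * t ^ 2 * u ^ 2) = 0 := by
    linear_combination 18 * t ^ 2 * e3 - 9 * t ^ 2 * t1 * h9 - 9 * t ^ 3 * h10 +
      (-864 * b * t ^ 2 + 304 * t1 ^ 2 + 192 * t * u) * e1 - 156 * t * t1 * e2
  have c4 : t * (13824 * t ^ 4 * t1 - 224 * t1 ^ 4 - 672 * t * t1 ^ 2 * u -
      504 * t ^ 2 * u ^ 2) = 0 := by
    linear_combination 54 * t ^ 2 * e4 + 3 * t ^ 2 * t1 * h9 + 99 * t ^ 3 * h10 +
      (-1728 * q * t ^ 2 - 1296 * b * t ^ 2 - 224 * t1 ^ 2 - 180 * t * u) * e1 +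
      168 * t * t1 * e2
  have f1 : t * t1 = 0 := by
    apply rcancel 5
    apply ncancel 1099008 (by norm_num)
    push_cast
    linear_combination 56 * c3 + 76 * c4
  have f2 : t * u = 0 := by
    have h3 : t ^ 3 * u ^ 2 = 0 := by
      apply ncancel 684 (by norm_num)
      push_cast
      linear_combination c3 - (864 * t ^ 4 + 304 * t1 ^ 3 + 912 * t * t1 * u) * f1
    have h4' : (t * u) ^ 3 = 0 := by linear_combination u * h3
    exact eq_zero_of_pow_eq_zero h4'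
  have f3 : t * b = 0 := by
    apply rcancel 3
    apply ncancel 6 (by norm_num)
    push_cast
    linear_combination e1 - t1 * f1 - 3 * t * f2
  have f4 : t * (t - 2 * p) = 0 := by
    apply rcancel 3
    apply ncancel 18 (by norm_num)
    push_cast
    linear_combination e2 - (8 * b * t + u) * f1
  have f5 : t * (t - p) = 0 := by
    have h := congrArg Z f3
    simp only [dmul, map_zero] at h
    rw [Zb, ← ht1] at h
    apply rcancel 2
    apply ncancel 6 (by norm_num)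
    push_cast
    linear_combination t * h - b * f1
  have f6 : t ^ 2 = 0 := by linear_combination 2 * f5 - f4
  exact eq_zero_of_pow_eq_zero f6

end Pool.Agent.Run7.h71.CD
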