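import Pool.Agent.Run7.h71.CD.THETA2

/-! # Project CD, piece TRANS -/

set_option autoImplicit false

namespace Pool.Agent.Run7.h71.CD

section

variable {A : Type} [CommRing A] [Algebra ℝ A]

theorem map_mul_mat (D : Derivation ℝ A A) (P Q : Matrix (Fin 3) (Fin 3) A) :
    (P * Q).map D = P.map D * Q + P * Q.map D := by
  ext i j
  simp only [Matrix.map_apply, Matrix.mul_apply, Matrix.add_apply, Fin.sum_univ_three, map_add,
    dmul]
  ring

/-- derivative of the inverse of the frame matrix -/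
theorem dual_deriv (D : Derivation ℝ A A) (P Q c : Matrix (Fin 3) (Fin 3) A) (h1 : P * Q = 1)
    (h2 : Q * P = 1) (hc : P.map D = c * P) : Q.map D = -(Q * c) := by
  have h := map_mul_mat D P Q
  have h0 : ((1 : Matrix (Fin 3) (Fin 3) A)).map D = 0 := by
    ext i j
    simp only [Matrix.map_apply, Matrix.zero_apply, Matrix.one_apply]
    split_ifs <;> simp
  rw [h1, h0, hc] at h
  have h' : P * Q.map D = -c := by
    have : c * P * Q + P * Q.map D = 0 := h.symm
    rw [Matrix.mul_assoc, h1, Matrix.mul_one] at this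
    exact (neg_eq_of_add_eq_zero_right this).symm
  calc Q.map D = Q * P * Q.map D := by rw [h2, Matrix.one_mul]
    _ = Q * (P * Q.map D) := by rw [Matrix.mul_assoc]
    _ = -(Q * c) := by rw [h', Matrix.mul_neg]

end

theorem TRANS : S_TRANS := by
  intro A _ _ Z N E X ζ ν a b p q l m n Fr S ha hm hl hn
  obtain ⟨P, hP⟩ : ∃ P : Matrix (Fin 3) (Fin 3) A, P = Matrix.of ![X, ζ, ν] := ⟨_, rfl⟩
  have hdet : IsUnit P.det := by rw [hP]; exact Fr.det
  obtain ⟨Q, hQ⟩ : ∃ Q : Matrix (Fin 3) (Fin 3) A, Q = P⁻¹ := ⟨_, rfl⟩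
  have h1 : P * Q = 1 := by rw [hQ]; exact Matrix.mul_nonsing_inv P hdet
  have h2 : Q * P = 1 := by rw [hQ]; exact Matrix.nonsing_inv_mul P hdet
  have P0 : ∀ j, P 0 j = X j := by intro j; rw [hP]; rfl
  have P1 : ∀ j, P 1 j = ζ j := by intro j; rw [hP]; rfl
  have P2 : ∀ j, P 2 j = ν j := by intro j; rw [hP]; rfl
  have hE : P.map E = 1 * P := by
    rw [Matrix.one_mul]
    ext i j
    fin_cases i
    · simpa [P0] using Fr.EX j
    · simpa [P1] using Fr.Eζ j
    · simpa [P2] using Fr.Eν j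
  have hZ : P.map Z = !![0, 1, 0; 0, 0, -2; -a, -b, 0] * P := by
    ext i j
    fin_cases i
    · simpa [P0, P1, P2, Matrix.mul_apply, Fin.sum_univ_three] using Fr.ZX j
    · simpa [P0, P1, P2, Matrix.mul_apply, Fin.sum_univ_three] using Fr.Zζ j
    · have := Fr.Zν j
      simp [P0, P1, P2, Matrix.mul_apply, Fin.sum_univ_three, this]
      ring
  have hN : P.map N = !![0, 0, 1; p, q, 0; l, m, n] * P := by
    ext i j
    fin_cases i
    · simpa [P0, P1, P2, Matrix.mul_apply, Fin.sum_univ_three] using Fr.NX j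
    · simpa [P0, P1, P2, Matrix.mul_apply, Fin.sum_univ_three] using Fr.Nζ j
    · simpa [P0, P1, P2, Matrix.mul_apply, Fin.sum_univ_three] using Fr.Nν j
  have qE := dual_deriv E P Q _ h1 h2 hE
  have qZ := dual_deriv Z P Q _ h1 h2 hZ
  have qN := dual_deriv N P Q _ h1 h2 hN
  obtain ⟨x, hx⟩ : ∃ x : Fin 3 → A, ∀ i, Q i 0 = x i := ⟨fun i => Q i 0, fun _ => rfl⟩
  obtain ⟨y, hy⟩ : ∃ y : Fin 3 → A, ∀ i, Q i 1 = y i := ⟨fun i => Q i 1, fun _ => rfl⟩
  obtain ⟨z, hz⟩ : ∃ z : Fin 3 → A, ∀ i, Q i 2 = z i := ⟨fun i => Q i 2, fun _ => rfl⟩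
  have ent : ∀ (D : Derivation ℝ A A) (c : Matrix (Fin 3) (Fin 3) A), Q.map D = -(Q * c) →
      ∀ i k, D (Q i k) = -(x i * c 0 k + y i * c 1 k + z i * c 2 k) := by
    intro D c h i k
    have := congrFun (congrFun h i) k
    simpa [Matrix.mul_apply, Fin.sum_univ_three, hx, hy, hz] using this
  have Ex : ∀ i, E (x i) = - x i := by
    intro i; rw [← hx, ent E _ qE]; simp [hx]
  have Ey : ∀ i, E (y i) = - y i := by
    intro i; rw [← hy, ent E _ qE]; simp [hy]
  have Ez : ∀ i, E (z i) = - z i := by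
    intro i; rw [← hz, ent E _ qE]; simp [hz]
  have Zx : ∀ i, Z (x i) = a * z i := by
    intro i; have h := ent Z _ qZ i 0; rw [hx] at h; rw [h]; simp; try ring
  have Zy : ∀ i, Z (y i) = - x i + b * z i := by
    intro i; have h := ent Z _ qZ i 1; rw [hy] at h; rw [h]; simp; try ring
  have Zz : ∀ i, Z (z i) = 2 * y i := by
    intro i; have h := ent Z _ qZ i 2; rw [hz] at h; rw [h]; simp; try ring
  have Nx : ∀ i, N (x i) = -(p * y i + l * z i) := by
    intro i; have h := ent N _ qN i 0; rw [hx] at h; rw [h]; simp; try ring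
  have Ny : ∀ i, N (y i) = -(q * y i + m * z i) := by
    intro i; have h := ent N _ qN i 1; rw [hy] at h; rw [h]; simp; try ring
  have Nz : ∀ i, N (z i) = -(x i + n * z i) := by
    intro i; have h := ent N _ qN i 2; rw [hz] at h; rw [h]; simp; try ring
  -- scalar products
  have sp : ∀ i k, ∑ j, P i j * Q j k = if i = k then 1 else 0 := by
    intro i k
    have := congrFun (congrFun h1 i) k
    simpa [Matrix.mul_apply, Matrix.one_apply] using this
  have xX : X 0 * x 0 + X 1 * x 1 + X 2 * x 2 = 1 := by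
    simpa [Fin.sum_univ_three, P0, hx] using sp 0 0
  have yX : X 0 * y 0 + X 1 * y 1 + X 2 * y 2 = 0 := by
    simpa [Fin.sum_univ_three, P0, hy] using sp 0 1
  have zX : X 0 * z 0 + X 1 * z 1 + X 2 * z 2 = 0 := by
    simpa [Fin.sum_univ_three, P0, hz] using sp 0 2
  have xζ : ζ 0 * x 0 + ζ 1 * x 1 + ζ 2 * x 2 = 0 := by
    simpa [Fin.sum_univ_three, P1, hx] using sp 1 0
  have yζ : ζ 0 * y 0 + ζ 1 * y 1 + ζ 2 * y 2 = 1 := by
    simpa [Fin.sum_univ_three, P1, hy] using sp 1 1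
  have zζ : ζ 0 * z 0 + ζ 1 * z 1 + ζ 2 * z 2 = 0 := by
    simpa [Fin.sum_univ_three, P1, hz] using sp 1 2
  -- the system with `t = 0`
  obtain ⟨p1, hp1⟩ : ∃ p1, p1 = Z p := ⟨_, rfl⟩
  have Zb : Z b = -6 * p := by rw [S.Zb]; ring
  have Zq := S.Zq
  have Zp1 : Z p1 = 8 * b * p := by
    have := S.Nt
    rw [map_zero, ← hp1] at this
    linear_combination this
  have Np := S.Np
  have Nb : N b = 2 * b ^ 2 + 2 * q * b + 2 * p1 := by
    rw [S.Nb, map_zero, hp1]; ring
  have Ep1 : E p1 = 0 := by rw [hp1, S.EZ, S.Ep, map_zero]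
  have Np1 : N p1 = 6 * p ^ 2 + (4 * q + 2 * b) * p1 := by
    have h := S.ZN p
    rw [Np, S.Ep] at h
    simp only [dmul, map_add, dof] at h
    rw [Zq, Zb, ← hp1] at h
    linear_combination -h
  have Eb := S.Eb
  have Ep := S.Ep
  rw [← hp1] at hl
  refine ⟨Matrix.of fun i j => x i * z j + z i * x j + 2 * (y i * y j) - b * (z i * z j),
    Matrix.of fun i j => 2 * (x i * x j) - 2 * p * (y i * z j + z i * y j) + p1 * (z i * z j),
    ?_, ?_, ?_, ?_, ?_, ?_, ?_, ?_, ?_, ?_, ?_, ?_, ?_⟩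
  · ext i j; simp only [Matrix.transpose_apply, Matrix.of_apply]; ring
  · ext i j; simp only [Matrix.transpose_apply, Matrix.of_apply]; ring
  · have e : (Matrix.of fun i j => x i * z j + z i * x j + 2 * (y i * y j) - b * (z i * z j)) =
        Q * !![0, 0, 1; 0, 2, 0; 1, 0, -b] * Q.transpose := by
      ext i j
      simp only [Matrix.of_apply, Matrix.mul_apply, Fin.sum_univ_three, Matrix.transpose_apply,
        hx, hy, hz]
      simp
      ring
    rw [e, Matrix.det_mul, Matrix.det_mul, Matrix.det_transpose]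
    have hq : IsUnit Q.det := by
      have := congrArg Matrix.det h1
      rw [Matrix.det_mul, Matrix.det_one] at this
      exact IsUnit.of_mul_eq_one _ (by rw [mul_comm]; exact this)
    have h2u : IsUnit (2 : A) := by
      have : (2 : A) = algebraMap ℝ A 2 := (map_ofNat (algebraMap ℝ A) 2).symm
      rw [this]
      exact (IsUnit.mk0 (2 : ℝ) two_ne_zero).map (algebraMap ℝ A)
    have hk : (!![0, 0, 1; 0, 2, 0; 1, 0, -b] : Matrix (Fin 3) (Fin 3) A).det = -2 := by
      simp [Matrix.det_fin_three]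
    rw [hk]
    exact (hq.mul h2u.neg).mul hq
  · intro i j
    simp only [Matrix.of_apply, map_add, map_sub, dmul, dof, Zx, Zy, Zz, Zb]
    rw [ha]; ring
  · intro i j
    simp only [Matrix.of_apply, map_add, map_sub, dmul, dof, Nx, Ny, Nz, Nb, hn]
    linear_combination (-(y i * z j) - (z i * y j)) * hm + (-(z i * z j)) * hl
  · intro i j
    simp only [Matrix.of_apply, map_add, map_sub, dmul, dof, Ex, Ey, Ez, Eb]
    ring
  · intro i j
    simp only [Matrix.of_apply, map_add, map_sub, dmul, dof, Zx, Zy, Zz, Zb, Zp1, ← hp1]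
    rw [ha]; ring
  · intro i j
    simp only [Matrix.of_apply, map_add, map_sub, dmul, dof, Nx, Ny, Nz, Nb, hn, Np, Np1]
    linear_combination (-(x i * z j) - (z i * x j)) * hl + 2 * p * (z i * z j) * hm
  · intro i j
    simp only [Matrix.of_apply, map_add, map_sub, dmul, dof, Ex, Ey, Ez, Ep, Ep1]
    ring
  · simp only [Matrix.of_apply, Fin.sum_univ_three]
    linear_combination 2 * (X 0 * x 0 + X 1 * x 1 + X 2 * x 2) * zX +
      2 * (X 0 * y 0 + X 1 * y 1 + X 2 * y 2) * yX - b * (X 0 * z 0 + X 1 * z 1 + X 2 * z 2) * zX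
  · simp only [Matrix.of_apply, Fin.sum_univ_three]
    linear_combination 2 * (X 0 * x 0 + X 1 * x 1 + X 2 * x 2 + 1) * xX -
      4 * p * (X 0 * y 0 + X 1 * y 1 + X 2 * y 2) * zX + p1 * (X 0 * z 0 + X 1 * z 1 + X 2 * z 2) * zX
  · simp only [Matrix.of_apply, Fin.sum_univ_three]
    linear_combination (X 0 * x 0 + X 1 * x 1 + X 2 * x 2) * zζ +
      (X 0 * z 0 + X 1 * z 1 + X 2 * z 2) * xζ + 2 * (ζ 0 * y 0 + ζ 1 * y 1 + ζ 2 * y 2) * yX -
      b * (X 0 * z 0 + X 1 * z 1 + X 2 * z 2) * zζ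
  · simp only [Matrix.of_apply, Fin.sum_univ_three]
    linear_combination 2 * (X 0 * x 0 + X 1 * x 1 + X 2 * x 2) * xζ -
      2 * p * (X 0 * y 0 + X 1 * y 1 + X 2 * y 2) * zζ -
      2 * p * (ζ 0 * y 0 + ζ 1 * y 1 + ζ 2 * y 2) * zX +
      p1 * (X 0 * z 0 + X 1 * z 1 + X 2 * z 2) * zζ

end Pool.Agent.Run7.h71.CD
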