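import Pool.Agent.Run7.h71.CD.Asm
import Pool.Agent.Run7.h71.CD.THETA2
import Pool.Agent.Run7.h71.CD.TRANS
import Pool.Agent.Run7.h559.CD.LVL
import Pool.Agent.Run7.h596.CD_THETA1
import Pool.Agent.Run7.h596.CD_STR
import Pool.Agent.Run7.h596.CD_FR
import Pool.Agent.Run7.h415.CD.RING
import Pool.Agent.Run7.h415.CD.TK
import Pool.Agent.Run7.h415.CD.LFT
import Pool.Agent.Run7.h531.CD_PAR
import Pool.Agent.Run7.h24.CD_EVN
import Pool.Agent.Run7.h24.CD_FIN
import Pool.Agent.Run7.h957.CD_OUT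
import Pool.Agent.Run7.h913.CD.ZETc
import Pool.Agent.Run7.h913.CD.SETUP
import Pool.Agent.Run7.h576.CD.JETS

/-! # Project CD: all pieces put together -/

set_option autoImplicit false

namespace Pool.Agent.Run7.h71.CD

theorem goal : Goal :=
  assembly _root_.Run7.h415.CD.RING _root_.Run7.h415.CD.TK _root_.Run7.h415.CD.LFT
    Pool.Agent.Run7.h913.CD.t_ZET EVN Pool.Agent.Run7.h913.CD.SETUP
    Pool.Agent.Run7.h576.CD.t_JETS FR STR THETA1 THETA2 TRANS OUT PAR
    _root_.Run7.h559.CD.t_LVL FIN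

end Pool.Agent.Run7.h71.CD
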