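import Pool.Agent.Run7.h71.CD.Defs

/-!
# Project CD: the statements of the pieces, with proofs in the doc strings

Goal (`Goal`, final hand-in of MP_ae5b4e_an): if ALL leaves (more precisely: the leaves through a
dense set of points) of a smooth foliation of a connected open set of the plane by curved arcs have
projective tangent involutions, then the leaves lie on nondegenerate conics of ONE pencil.

Every piece is a closed `Prop`.  A piece `S_XXX` is solved by a theorem `XXX : S_XXX`.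
-/

set_option autoImplicit false

namespace Pool.Agent.Run7.h71.CD

open Set Filter Topology
open scoped ContDiff

/-- **Piece RING** (about 80 lines).  The ring `Sm O` has the partial derivatives as commuting
derivations.

Proof.  For `f : Sm O` choose `g` (`Classical.choose f.2`) with `f = g` on `O`, and let
`(d i f) x = fderiv ℝ g x (Pi.single i 1)`; this is again in `Sm O` (`ContDiffOn.fderiv_of_isOpen`),
and does not depend on `g`: if `g = g'` on the open set `O` then `g =ᶠ[𝓝 x] g'` for `x ∈ O`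
(`Filter.EventuallyEq.fderiv_eq`).  Additivity, `ℝ`-linearity and the Leibniz rule
(`Derivation.mk'`) from `fderiv_add`, `fderiv_mul`, ...; commutation: symmetry of the second
derivative of a smooth function (`ContDiffAt.isSymmSndFDerivAt` or `second_derivative_symmetric`). -/
def S_RING : Prop := ∀ O : Set E3, IsOpen O → ∃ d : Fin 3 → Derivation ℝ (Sm O) (Sm O), IsD O d

/-- **Piece TK** (about 100 lines).  `k`-th derivative in the parameter `s` at `s = 0` of a function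
smooth in `(X, s)` near `O × {0}`: smooth in `X`, and differentiation in `X` commutes with it.

Proof.  Induction on `k`: `iteratedDeriv (k+1) g 0 = iteratedDeriv k (deriv g) 0`
(`iteratedDeriv_succ'`), `deriv (fun s => Φ (X, s)) s = fderiv ℝ Φ (X, s) (0, 1)` for `(X, s) ∈ W`,
so pass from `Φ` to `Φ' = fun z => fderiv ℝ Φ z (0, 1)`, smooth on `W` (equality only near `s = 0`:
`iteratedDeriv` of functions which agree near `0` agree, `Filter.EventuallyEq.iteratedDeriv_eq`).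
Symmetry of the second derivative of `Φ` at `(X, s)` gives
`fderiv ℝ Φ' z (V, 0) = fderiv ℝ (fun z => fderiv ℝ Φ z (V, 0)) z (0, 1)`. -/
def S_TK : Prop := ∀ (O : Set E3) (W : Set (E3 × ℝ)) (Φ : E3 × ℝ → ℝ), IsOpen O → IsOpen W →
  (∀ X ∈ O, (X, (0 : ℝ)) ∈ W) → ContDiffOn ℝ ∞ Φ W → ∀ k : ℕ,
    ContDiffOn ℝ ∞ (fun X => iteratedDeriv k (fun s : ℝ => Φ (X, s)) 0) O ∧
    ∀ X ∈ O, ∀ V : E3, fderiv ℝ (fun X => iteratedDeriv k (fun s : ℝ => Φ (X, s)) 0) X V =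
      iteratedDeriv k (fun s : ℝ => fderiv ℝ Φ (X, s) (V, 0)) 0

/-- **Piece LFT** (about 60 lines).  Elementary facts on the cone and the homogeneous function. -/
def S_LFT : Prop := ∀ (U : Set (ℝ × ℝ)) (F : ℝ × ℝ → ℝ), IsOpen U → ContDiffOn ℝ ∞ F U →
  IsOpen (cone U) ∧ ContDiffOn ℝ ∞ (lft F) (cone U) ∧
  (∀ X ∈ cone U, ∀ r : ℝ, 0 < r → r • X ∈ cone U ∧ lft F (r • X) = lft F X) ∧
  (∀ x ∈ U, hom x ∈ cone U ∧ lft F (hom x) = F x) ∧
  (∀ X ∈ cone U, fderiv ℝ (lft F) X X = 0) ∧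
  (∀ x ∈ U, ∀ v : ℝ × ℝ, fderiv ℝ (lft F) (hom x) ![v.1, v.2, 0] = fderiv ℝ F x v) ∧
  (IsConnected U → IsConnected (cone U))

/-- **Piece ZET** (about 150 lines, may be split).  The normalised vector field exists.

Proof.  Let `G i X = fderiv ℝ (lft F) X (Pi.single i 1)` and
`Z X = ![G 1 X * X 2 - G 2 X * X 1, G 2 X * X 0 - G 0 X * X 2, G 0 X * X 1 - G 1 X * X 0]`
(cross product `G × X`), so that `fderiv ℝ (lft F) X (Z X) = 0`, `Z` is homogeneous of degree `0`.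
Let `κ X = iteratedDeriv 2 (fun s => lft F (X + s • Z X)) 0`,
`τ X = iteratedDeriv 3 (fun s => lft F (X + s • Z X)) 0`: both smooth on the cone (piece TK with
`Φ (X, s) = lft F (X + s • Z X)`).  `κ > 0`: with `x = (X 0 / X 2, X 1 / X 2)` and
`v = ((Z 0 - x.1 Z 2) / X 2, (Z 1 - x.2 Z 2) / X 2)`, `e = Z 2 / X 2` one has
`lft F (X + t • Z) = F (x + (t / (1 + e t)) • v)`, `fderiv ℝ F x v = 0`, `v ≠ 0` (otherwise `Z` would
be a multiple of `X`, but `Z ⟂ X` and `Z ≠ 0` because `G ≠ 0` is perpendicular to `X`), and the second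
derivative of `t ↦ F (x + (t / (1 + e t)) • v)` at `0` is that of `s ↦ F (x + s • v)`, as the first
derivative of the latter vanishes.  Set `λ = √(2 / κ)`, `k = τ / (6 κ)`,
`ζ X = λ • (Z X + k • X)`.  Homogeneity: `κ (r X) = r⁻² κ X`, `τ (r X) = r⁻³ τ X`.
With `g₀ t = lft F (X + t • Z X)` one has
`lft F (X + s • ζ X) = g₀ (λ s / (1 + k λ s))` (homogeneity, `s` near `0`), hence the
second derivative at `0` is `λ² κ = 2` and the third is `λ³ (τ - 6 k κ) = 0`, the first is `0`.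
This gives `two` and `odd` for `k = 1, 3`. -/
def S_ZET : Prop := ∀ (U : Set (ℝ × ℝ)) (F : ℝ × ℝ → ℝ), Leaves U F →
  ∃ ζ : E3 → E3, ContDiffOn ℝ ∞ ζ (cone U) ∧
    (∀ X ∈ cone U, ∀ r : ℝ, 0 < r → ζ (r • X) = r • ζ X) ∧
    (∀ X ∈ cone U, iteratedDeriv 2 (fun s : ℝ => lft F (X + s • ζ X)) 0 = 2) ∧
    (∀ X ∈ cone U, iteratedDeriv 1 (fun s : ℝ => lft F (X + s • ζ X)) 0 = 0) ∧
    (∀ X ∈ cone U, iteratedDeriv 3 (fun s : ℝ => lft F (X + s • ζ X)) 0 = 0)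

/-- **Piece EVN** (about 80 lines).  One variable: a function smooth near `0` with `g' = 0`,
`g'' = 2`, `g''' = 0` at `0` which is invariant under `s ↦ -s / (1 + c s)` is even near `0`
(`c = 0`), so its derivatives of odd order at `0` vanish.

Proof.  Taylor: `g s = g 0 + s² + O(s⁴)`.  With `σ = -s / (1 + c s) = -s + c s² + O(s³)`:
`0 = g σ - g s = σ² - s² + O(s⁴) = -2 c s³ + O(s⁴)`, so `c = 0`.  (Or differentiate the identity
`g (σ s) = g s` three times at `0`.)  Then `g (-s) = g s` near `0`, and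
`iteratedDeriv k (fun s => g (-s)) 0 = (-1)^k iteratedDeriv k g 0` (`iteratedDeriv_comp_neg`). -/
def S_EVN : Prop := ∀ (g : ℝ → ℝ) (c : ℝ), ContDiffAt ℝ ∞ g 0 → iteratedDeriv 1 g 0 = 0 →
  iteratedDeriv 2 g 0 = 2 → iteratedDeriv 3 g 0 = 0 →
  (∀ᶠ s in 𝓝 (0 : ℝ), g s = g (-s / (1 + c * s))) → ∀ k : ℕ, Odd k → iteratedDeriv k g 0 = 0

/-- **Piece SETUP** (about 100 lines, from LFT, TK, ZET, EVN).  Proof.  Take `ζ` of ZET.  Let
`X ∈ cone U` lie over a point `x ∈ S`: with `v = (ζ 0 / X 2 - x.1 ζ 2 / X 2, ζ 1 / X 2 - x.2 ζ 2 / X 2)`,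
`e = ζ 2 / X 2`: `lft F (X + s • ζ) = F (x + (s / (1 + e s)) • v)` near `s = 0`, `fderiv ℝ F x v = 0`
(first derivative).  `ProjAt` gives `c` with `F (x + t • v) = F (x - (t / (1 + c t)) • v)`; with
`t = s / (1 + e s)` this is invariance of `g s = lft F (X + s • ζ)` under
`s ↦ -s / (1 + (c + 2 e) s)`, and EVN applies: all odd derivatives vanish at `X`.
The functions `X ↦ iteratedDeriv k (fun s => lft F (X + s • ζ X)) 0` are continuous on the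
cone (TK), the set of `X` over `S` is dense in the cone (`U` open, `U ⊆ closure S`), so they vanish on
the cone for `k = 5, 7`. -/
def S_SETUP : Prop := S_LFT → S_TK → S_ZET → S_EVN →
  ∀ (U : Set (ℝ × ℝ)) (F : ℝ × ℝ → ℝ) (S : Set (ℝ × ℝ)),
  Leaves U F → U ⊆ closure S → (∀ x ∈ S ∩ U, ProjAt F x) → ∃ ζ : E3 → E3, Fld U F ζ

/-- **Piece JETS** (about 150 lines, from LFT, TK).  Let `O = cone U`, `Φ_j (X, s) = ` the `j`-th
partial derivative of `lft F` at `X + s • ζ X` (smooth on `W = {(X, s) | X ∈ O, X + s • ζ X ∈ O}`),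
`f (X, s) = lft F (X + s • ζ X)`, and let `M k j X = iteratedDeriv k (fun s => Φ_j (X, s)) 0`.
* `∂_s f = ∑ ζ_i Φ_i`, so `dot (M k) ζ = iteratedDeriv (k+1) f 0`: this gives `f1, f2, f3, f5, f7`
  and, by TK for `f`, `d j (dot (M k) ζ) = iteratedDeriv (k+1) (∂_{X_j} f) 0` with
  `∂_{X_j} f = Φ_j + s ∑_i Φ_i d_j ζ_i` (chain rule) and
  `iteratedDeriv (k+1) (s ψ(s)) 0 = (k+1) iteratedDeriv k ψ 0`: this is `dM`.
* homogeneity: `∑ (X_i + s ζ_i) Φ_i (X, s) = 0` (Euler, `lft F` has degree 0): apply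
  `iteratedDeriv (k+1)`: `XM`; `k = 0`: `X0`.
* `M1`: `M 1 j = ∂_s Φ_j = ∑_i ζ_i ∂_i ∂_j lft F`.
* `Eζ`: Euler for `ζ (r X) = r ζ X` (derivative at `r = 1`).  `Zζ` defines `ν`
  (`ν i = -(1/2) ∑ ζ j d j ζ i`).  `dX`: derivative of coordinates.
* `det`: `dot (M 0) ζ = 0` differentiated along `ζ`:
  `0 = dot (M 1) ζ + dot (M 0) (Z ζ) = 2 - 2 dot (M 0) ν` (use `M1`), so `dot (M 0) ν = 1`.  If the
  determinant vanished at a point `x`, there would be a relation `α X + β ζ + γ ν = 0` there; apply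
  `dot (M 0)`: `γ = 0`; so (`X ≠ 0`) `ζ = c X`, and `lft F (X + s • ζ) = lft F ((1 + c s) • X)` is
  constant near `s = 0`, contradicting `two`.  An element of `Sm O` without zeros is a unit
  (`ContDiffOn.inv`). -/
def S_JETS : Prop := S_LFT → S_TK → ∀ (U : Set (ℝ × ℝ)) (F : ℝ × ℝ → ℝ) (ζ : E3 → E3), Leaves U F →
  Fld U F ζ → ∀ d : Fin 3 → Derivation ℝ (Sm (cone U)) (Sm (cone U)), IsD (cone U) d →
  ∃ (Xc Zc ν : Fin 3 → Sm (cone U)) (M : ℕ → Fin 3 → Sm (cone U)),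
    (∀ i x, (Xc i).1 x = x.1 i) ∧ (∀ i x, (Zc i).1 x = ζ x.1 i) ∧
    (∀ j x, (M 0 j).1 x = fderiv ℝ (lft F) x.1 (Pi.single j 1)) ∧
    Jets d Xc Zc ν M

/-- **Piece FR** (algebra, about 150 lines).  The moving frame.

Proof.  `E f = ∑ X_j d_j f`, `Z f = ∑ ζ_j d_j f`, `N f = ∑ ν_j d_j f` are derivations.  For vectors
`V, W : Fin 3 → A`: `D_V D_W f - D_W D_V f = D_{[V,W]} f` with `[V,W]_i = D_V W_i - D_W V_i` (the `d_j`
commute).  `E X = X`, `Z X = ζ`, `N X = ν` (`dX`), `E ζ = ζ` (`Eζ`); `[E, Z] = 0`, so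
`E ν = ν` (`-2 E ν = E Z ζ = Z E ζ = -2 ν`), `[E, N] = 0`.  As the determinant is a
unit every `V` is uniquely `V = x X + y ζ + z ν` (Cramer).  Let `Z ν = -(a X + b ζ) + c ν`,
`N ζ = p X + q ζ + r ν`, `N ν = l X + m ζ + n ν`; `E` applied to these equations and
uniqueness give `E a = ... = E n = 0`, and `[Z, N] = Z ν - N ζ = -(a + p) X - (b + q) ζ + (c - r) ν`.
Jets: write `x_k = dot (M k) X`, `z_k = dot (M k) ζ`, `n_k = dot (M k) ν`, `f_k = z_{k-1}`.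
`XM`: `x_{k+1} = -(k+1) z_k`.  Contract `dM` with `ζ` and `ν`:
`Z f_k = z_k + k dot (M (k-1)) (Z ζ) = z_k - 2 k n_{k-1}`,
`N f_k = n_k + k (p x_{k-1} + q z_{k-1} + r n_{k-1})`.
`k = 1`: `n_0 = 1` and `0 = n_1 + r`; `k = 2`: `n_1 = 0` (`f_2 = 2`, `z_2 = 0`), so `r = 0`, and
`0 = n_2 + 2 (p x_1 + q z_1) = n_2 + 4 q` (`x_1 = -z_0 = 0`).
`c = 0`: `0 = Z n_0 = dot (Z M_0) ν + dot (M 0) (Z ν) = n_1 + c` by `M1`.
`k = 3`: `0 = Z f_3 = f_4 - 6 n_2`, so `f_4 = -24 q`; `0 = N f_3 = n_3 + 3 p x_2 = n_3 - 12 p`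
(`x_2 = -2 z_1 = -4`, `z_2 = n_2`-free).  `k = 4`: `Z f_4 = z_4 - 8 n_3 = -8 n_3` gives
`-24 Z q = -96 p`: **`Z q = 4 p`**; `N f_4 = n_4 + 4 (p x_3 + q z_3)`, `x_3 = -3 z_2 = 0`,
`z_3 = f_4`: `-24 N q = n_4 - 96 q²`.  `k = 5`: `0 = Z f_5 = f_6 - 10 n_4`;
`0 = N f_5 = n_5 + 5 (p x_4 + q z_4) = n_5 - 20 p f_4 = n_5 + 480 p q`.  `k = 6`:
`Z f_6 = z_6 - 12 n_5 = 5760 p q`, and `f_6 = 10 n_4 = 960 q² - 240 N q`:
`1920 q Z q - 240 Z (N q) = 5760 p q`: **`Z (N q) = 8 p q`**. -/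
def S_FR : Prop := ∀ (A : Type) [CommRing A] [Algebra ℝ A] (d : Fin 3 → Derivation ℝ A A)
  (X ζ ν : Fin 3 → A) (M : ℕ → Fin 3 → A), Jets d X ζ ν M →
  ∃ (Z N E : Derivation ℝ A A) (a b p q l m n : A), Frm Z N E X ζ ν a b p q l m n ∧
    Z q = 4 * p ∧ Z (N q) = 8 * p * q ∧ dot (M 0) ν = 1 ∧
    (∀ f, E f = ∑ j, X j * d j f) ∧ (∀ f, Z f = ∑ j, ζ j * d j f) ∧ (∀ f, N f = ∑ j, ν j * d j f)

/-- **Piece STR** (algebra, about 100 lines).  The structure equations.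

Proof.  Apply `ZN` (with the frame equations) to the coordinates of `ζ` and `ν` and compare
coefficients (the determinant is a unit).  `ζ`: `Z (N ζ) - N (Z ζ) = Z (p X + q ζ) + 2 N ν`:
`Z p + 2 l = 0`; `p + Z q + 2 m = -(a + p)`; `-2 q + 2 n = 2 (b + q)`, i.e. `n = 2 q + b`.
`ν`: `Z (l X + m ζ + n ν) + N (a X + b ζ) = (b + q) (a X + b ζ) - (a + p) ν`:
`X`: `Z l - n a + N a + b p = (b + q) a`; `ζ`: `l + Z m - n b + N b + b q = (b + q) b`;
`ν`: `-2 m + Z n + a = -(a + p)`.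
Let `t = p + (1/6) Z b`.  With `Z q = 4 p`: `2 m = -a - 6 p`, and from the last equation
`3 a = -15 p - Z b`, so `a = -2 t - 3 p`, `2 m = 2 t - 3 p`.  `ZN` applied to `q`:
`8 p q - 4 N p = -(b + q) 4 p`, so `N p = p (3 q + b)`.  The `ζ` equation times 2:
`N b = 2 b² + 2 q b - Z t + 2 Z p`; the `X` equation times 2 gives `4 N t = ...`.  `β = -(a + p)`. -/
def S_STR : Prop := ∀ (A : Type) [CommRing A] [Algebra ℝ A] (Z N E : Derivation ℝ A A)
  (X ζ ν : Fin 3 → A) (a b p q l m n : A), Frm Z N E X ζ ν a b p q l m n →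
  Z q = 4 * p → Z (N q) = 8 * p * q →
  ∃ t : A, Sys Z N E (-(a + p)) b p q t ∧ a = -2 * t - 3 * p ∧ 2 * m = 2 * t - 3 * p ∧
    2 * l = - Z p ∧ n = 2 * q + b

/-- **Piece THETA1** (algebra, about 60 lines).  The first consequences of the system.  Notation
`p1 = Z p`, `t1 = Z t`.

Proof.  (1) `ZN` for `b` gives `2 Z (Z t) = 36 b t - 56 b p + 7 Z (Z p)`, i.e.
`Z t1 = 18 b t + (7/2) u` with `u = Z (Z p) - 8 b p`.  (2) `N p1`, `N (Z p1)`, `N t1` from `ZN`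
(`E` kills `p, p1, t, ...` by `EZ`): `N p1 = p1 (4 q + 2 b) + 6 p (p + t)`,
`N (Z p1) = Z p1 (5 q + 3 b) + p1 (16 p + 18 t) + 6 p t1`, ...; `ZN` for `t1` gives
`Z (Z u) = 32 b u + 240 t t1 - 204 p t1 - 396 p1 t`, i.e. for `p4 = Z (Z (Z (Z p)))`:
`p4 = 4 (t1 (60 t - 39 p) - p1 (75 t + 36 p) + 10 b Z p1 - 64 b² p)`.
(3) `ZN` for `Z (Z p1)` gives `R9`: `3 t Z u + 4 t1 u = 36 t² (2 t - 5 p)` (times 40). -/
def S_THETA1 : Prop := ∀ (A : Type) [CommRing A] [Algebra ℝ A] (Z N E : Derivation ℝ A A)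
  (β b p q t : A), Sys Z N E β b p q t → ∀ u : A, u = Z (Z p) - 8 * b * p →
    2 * Z (Z t) = 36 * b * t + 7 * u ∧
    Z (Z u) = 32 * b * u + 240 * t * Z t - 204 * p * Z t - 396 * Z p * t ∧
    3 * t * Z u + 4 * Z t * u = 36 * t ^ 2 * (2 * t - 5 * p)

/-- **Piece THETA2** (algebra, about 100 lines).  In a reduced ring `t = 0`.

Proof.  Write `t1 = Z t`, `p1 = Z p`, `u = Z p1 - 8 b p`, `u1 = Z u`.  Known: `2 Z t1 = 36 b t + 7 u`,
`Z u1 = 32 b u + 240 t t1 - 204 p t1 - 396 p1 t`, `Z p1 = 8 b p + u`, `Z b = 6 (t - p)`,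
`R9`: `3 t u1 + 4 t1 u = 36 t² (2 t - 5 p)`;
`4 N t = 4 t (2 b + 3 q) - u`, `N u = u (5 q + 3 b) + 18 t p1 + 14 p t1`, `N (Z f) = Z (N f) + (b + q) Z f`
for `f = t, u, p` (`ZN`, `E f = 0`).
`Z R9 / 7`: `R10`: `t1 u1 + 2 u² + 24 b t u + 72 t² t1 - 36 t t1 p - 144 t² p1 = 0`.
`Z R10` and `N R9` together with `R9`, `R10` (solve `R9` for `t u1`, then `R10` for `t³ p1`) give
`t ^ k * (t1² + 3 t u + 6 b t²) = 0`, so (`rcancel`) `t * (t1² + 3 t u + 6 b t²) = 0` (E1).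
`Z E1` gives `t * (8 b t t1 + t1 u + 18 t³ - 36 p t²) = 0` (E2).  With
`W = 4 t1⁴ + 12 t t1² u + 9 t² u²`:  `Z E2` and `N E1` give `t ^ k * (19 W + 216 t⁴ t1) = 0` and
`t ^ k * (7 W - 1728 t⁴ t1) = 0`; so `t t1 = 0`, `t W = 0`, `t u = 0`; then `t b = 0` (E1),
`t (t - 2 p) = 0` (E2), `0 = Z (t b)`: `t (t - p) = 0`; so `t² = 0`, `t = 0`. -/
def S_THETA2 : Prop := S_THETA1 → ∀ (A : Type) [CommRing A] [Algebra ℝ A] [IsReduced A]
  (Z N E : Derivation ℝ A A) (β b p q t : A), Sys Z N E β b p q t → t = 0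

/-- the conclusion of THETA2 -/
def S_THETA : Prop := ∀ (A : Type) [CommRing A] [Algebra ℝ A] [IsReduced A]
  (Z N E : Derivation ℝ A A) (β b p q t : A), Sys Z N E β b p q t → t = 0

/-- **Piece TRANS** (algebra, about 120 lines).  The parallel pencil of forms (`t = 0`).

Proof.  Let `x, y, z : Fin 3 → A` be the dual frame (the columns of the inverse of the matrix
with rows `X, ζ, ν`): `dot x X = 1`, `dot x ζ = 0`, ..., and `∑`: `X i x j + ζ i y j + ν i z j = δ_ij`.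
Differentiating: `Z x = a z`, `Z y = -x + b z`, `Z z = 2 y`; `N x = -p y - l z`,
`N y = -q y - m z`, `N z = -x - n z`; `E x = -x`, `E y = -y`, `E z = -z`.  Put
`B = x zᵀ + z xᵀ + 2 y yᵀ - b z zᵀ`, `C = 2 x xᵀ - 2 p (y zᵀ + z yᵀ) + (Z p) z zᵀ`.
Sys with `t = 0`: `Z b = -6 p`, `Z q = 4 p`, `Z (Z p) = 8 b p`, `N p = p (3 q + b)`,
`N b = 2 b² + 2 q b + 2 Z p`, `N (Z p) = Z p (4 q + 2 b) + 6 p²` (from `ZN`), `a = -3 p`, `2 m = -3 p`,
`2 l = -Z p`, `n = 2 q + b`.  All identities are checked by computation. -/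
def S_TRANS : Prop := ∀ (A : Type) [CommRing A] [Algebra ℝ A] (Z N E : Derivation ℝ A A)
  (X ζ ν : Fin 3 → A) (a b p q l m n : A), Frm Z N E X ζ ν a b p q l m n →
  Sys Z N E (-(a + p)) b p q 0 → a = - 3 * p → 2 * m = - 3 * p → 2 * l = - Z p → n = 2 * q + b →
  ∃ B C : Matrix (Fin 3) (Fin 3) A, B.IsSymm ∧ C.IsSymm ∧ IsUnit B.det ∧
    (∀ i j, Z (B i j) = 0) ∧ (∀ i j, N (B i j) = - C i j - 2 * q * B i j) ∧
    (∀ i j, E (B i j) = -2 * B i j) ∧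
    (∀ i j, Z (C i j) = -4 * p * B i j) ∧ (∀ i j, N (C i j) = 0) ∧
    (∀ i j, E (C i j) = -2 * C i j) ∧
    ∑ i, ∑ j, B i j * X i * X j = 0 ∧ ∑ i, ∑ j, C i j * X i * X j = 2 ∧
    ∑ i, ∑ j, B i j * X i * ζ j = 0 ∧ ∑ i, ∑ j, C i j * X i * ζ j = 0

/-- **Statement for piece OUT** (about 100 lines).  From the algebra to real functions on the cone.

Proof.  RING, JETS, FR, STR, THETA2, TRANS applied to `A = Sm (cone U)`.  `B`, `C` are the real
functions represented by the entries.  With `δ` the determinant (a unit) of `X, ζ, ν`: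
`Z δ = 0`, `E δ = 3 δ` (multilinearity; `h X` = value of `δ`).  `fderiv` in direction `e_k`:
`d k = x_k E + y_k Z + z_k N` (dual frame, Cramer), so `d k B = w B + w' C` with `w, w'` in
`Sm (cone U)`.  If `fderiv (lft F) X V = 0` write `V = α X + β ζ + γ ν`: then `γ = 0` as
`dot (M 0) ν = 1`, `dot (M 0) X = dot (M 0) ζ = 0`. -/
def OutP : Prop := ∀ (U : Set (ℝ × ℝ)) (F : ℝ × ℝ → ℝ) (ζ : E3 → E3), Leaves U F → Fld U F ζ →
  ∃ (B C : E3 → Matrix (Fin 3) (Fin 3) ℝ) (w : Fin 3 → Fin 4 → E3 → ℝ) (h : E3 → ℝ),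
    Par (cone U) B C w ∧
    (∀ X ∈ cone U, (B X).IsSymm ∧ (C X).IsSymm ∧ (B X).det ≠ 0 ∧ qf (B X) X = 0 ∧ qf (C X) X = 2) ∧
    (∀ X ∈ cone U, ∑ i, ∑ j, B X i j * X i * ζ X j = 0 ∧ ∑ i, ∑ j, C X i j * X i * ζ X j = 0) ∧
    ContDiffOn ℝ ∞ h (cone U) ∧
    (∀ X ∈ cone U, h X ≠ 0 ∧ fderiv ℝ h X (ζ X) = 0 ∧ fderiv ℝ h X X = 3 * h X) ∧
    (∀ X ∈ cone U, ∀ V : E3, fderiv ℝ (lft F) X V = 0 → ∃ α β : ℝ, V = α • X + β • ζ X)

/-- **Piece OUT**: see `OutP`. -/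
def S_OUT : Prop := S_LFT → S_RING →
  (∀ (U : Set (ℝ × ℝ)) (F : ℝ × ℝ → ℝ) (ζ : E3 → E3), Leaves U F →
    Fld U F ζ → ∀ d : Fin 3 → Derivation ℝ (Sm (cone U)) (Sm (cone U)), IsD (cone U) d →
    ∃ (Xc Zc ν : Fin 3 → Sm (cone U)) (M : ℕ → Fin 3 → Sm (cone U)),
      (∀ i x, (Xc i).1 x = x.1 i) ∧ (∀ i x, (Zc i).1 x = ζ x.1 i) ∧
      (∀ j x, (M 0 j).1 x = fderiv ℝ (lft F) x.1 (Pi.single j 1)) ∧
      Jets d Xc Zc ν M) → S_FR → S_STR → S_THETA → S_TRANS → OutP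

/-- **Piece PAR** (about 80 lines).  The span of a parallel pair is constant.

Proof.  Let `ℓ` be a linear form on matrices vanishing on `B X₀`, `C X₀`, and
`y X = (ℓ (B X), ℓ (C X))`.  Then `fderiv y X V = Ω(X, V) y X` with continuous `Ω`.  The set
`{X ∈ O | y X = 0}` is closed in `O`, and open: on a small ball around a zero `‖Ω(X, V)‖ ≤ K ‖V‖`,
and along a segment from the zero Gronwall's inequality
(`norm_le_gronwallBound_of_norm_deriv_right_le` or `ODE_solution_unique`) gives `y = 0`.  As `O` is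
connected `y = 0` on `O`.  A matrix on which every such `ℓ` vanishes is in the span
(`Submodule.exists_le_ker_of_notMem` or finite-dimensional duality). -/
def S_PAR : Prop := ∀ (O : Set E3) (B C : E3 → Matrix (Fin 3) (Fin 3) ℝ)
  (w : Fin 3 → Fin 4 → E3 → ℝ), IsOpen O → IsConnected O → Par O B C w →
  ∀ X₀ ∈ O, ∀ X ∈ O, (∃ α β : ℝ, B X = α • B X₀ + β • C X₀) ∧
    ∃ α β : ℝ, C X = α • B X₀ + β • C X₀

/-- **Piece LVL** (about 120 lines).  A smooth function whose differential is proportional to that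
of `F` is constant on connected pieces of level sets.

Proof.  It is enough to show: every `x₀ ∈ U` has a neighbourhood `V` such that `R x = R x₀` for all
`x ∈ V` with `F x = F x₀` (then `R` is locally constant on `L`, `IsPreconnected.constant` or a clopen
argument).  Say `∂F/∂y ≠ 0` at `x₀` (else exchange the coordinates; or use
`HasStrictFDerivAt.implicitFunction` for general position): the map
`Ψ (x, y) = (x, F (x, y))` is a local diffeomorphism (`ContDiffAt.toOpenPartialHomeomorph`), and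
`R ∘ Ψ⁻¹` has zero partial derivative in the first variable, so it is constant on horizontal
segments of a small box. -/
def S_LVL : Prop := ∀ (U : Set (ℝ × ℝ)) (F R : ℝ × ℝ → ℝ), IsOpen U → ContDiffOn ℝ ∞ F U →
  ContDiffOn ℝ ∞ R U → (∀ x ∈ U, fderiv ℝ F x ≠ 0) →
  (∀ x ∈ U, ∀ v : ℝ × ℝ, fderiv ℝ F x v = 0 → fderiv ℝ R x v = 0) →
  ∀ L ⊆ U, IsPreconnected L → (∀ x ∈ L, ∀ y ∈ L, F x = F y) → ∀ x ∈ L, ∀ y ∈ L, R x = R y

/-- the final theorem -/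
def Goal : Prop := ∀ (U : Set (ℝ × ℝ)) (F : ℝ × ℝ → ℝ) (S : Set (ℝ × ℝ)), IsConnected U →
  Leaves U F → U ⊆ closure S → (∀ x ∈ S ∩ U, ProjAt F x) →
  ∃ Q₁ Q₂ : Matrix (Fin 3) (Fin 3) ℝ, Q₁.IsSymm ∧ Q₂.IsSymm ∧ LinearIndependent ℝ ![Q₁, Q₂] ∧
    (∀ x ∈ U, qf Q₁ (hom x) ≠ 0 ∨ qf Q₂ (hom x) ≠ 0) ∧
    ∀ L ⊆ U, IsPreconnected L → (∀ x ∈ L, ∀ y ∈ L, F x = F y) →
      ∃ α β : ℝ, (α • Q₁ + β • Q₂).det ≠ 0 ∧ ∀ x ∈ L, qf (α • Q₁ + β • Q₂) (hom x) = 0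

/-- **Piece FIN** (about 120 lines).  Proof.  `ζ` from SETUP, `B, C, w, h` from OUT.  Let `x₀ ∈ U`,
`X₀ = hom x₀`, `Q₁ = B X₀`, `Q₂ = C X₀`; independent, as `det Q₁ ≠ 0`, `qf Q₁ X₀ = 0`,
`qf Q₂ X₀ = 2`.  By PAR `B X, C X` are combinations of `Q₁, Q₂` for all `X` in the cone (connected, LFT);
for `X = hom x`: `qf (C X) X = 2 ≠ 0` gives the fourth claim.  For `L` nonempty, `y₀ ∈ L`,
`Y₀ = hom y₀`, let `Q = B Y₀ = α Q₁ + β Q₂`, `det Q ≠ 0`, and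
`R x = (qf Q (hom x)) ^ 3 / (h (hom x)) ^ 2`.  The function `X ↦ (qf Q X)³ / (h X)²` on the cone has
degree `0` and zero derivative along `ζ`: by PAR (base point `X`) `Q = α' B X + β' C X`, so
`∑ Q i j X i ζ j = 0`.  A vector `v` with `fderiv F x v = 0` lifts to
`V = (v.1, v.2, 0)`, `fderiv (lft F) (hom x) V = 0`, `V = α X + β ζ`, so `fderiv R x v = 0`.  By LVL
`R = R y₀ = 0` on `L`, i.e. `qf Q (hom x) = 0` on `L`.  For `L` empty take `α = 1, β = 0`. -/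
def S_FIN : Prop := S_LFT → S_PAR → S_LVL → OutP →
  (∀ (U : Set (ℝ × ℝ)) (F : ℝ × ℝ → ℝ) (S : Set (ℝ × ℝ)), Leaves U F → U ⊆ closure S →
    (∀ x ∈ S ∩ U, ProjAt F x) → ∃ ζ : E3 → E3, Fld U F ζ) → Goal

end Pool.Agent.Run7.h71.CD
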